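import Mathlib
import Pool.Agent.N205.SE.StmA

/-!
# Integral correspondences, étale motivic cohomology and unramified cohomology: definitions
-/

set_option autoImplicit false

open CategoryTheory AlgebraicGeometry

namespace Pool.Agent.N205.UR

open Pool.Agent.H914 Pool.Agent.H914.VarClass Pool.Agent.H914.VarClass.Obj
  Pool.Agent.W492.BB Pool.Agent.W484.CK

section groups

variable {M N P : Type} [AddCommGroup M] [AddCommGroup N] [AddCommGroup P]

/-- `x = 0`. -/
def IsNull (x : M) : Prop := x = 0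

/-- The elements with the property `G` form a subgroup. -/
def IsSub (G : M → Prop) : Prop := G 0 ∧ ∀ a b, G a → G b → G (a - b)

/-- The map `f` is additive. -/
def IsAdd (f : M → N) : Prop := ∀ a b, f (a + b) = f a + f b

/-- The map `f` is additive in both variables. -/
def IsBiadd (f : M → N → P) : Prop := (∀ a, IsAdd (f a)) ∧ ∀ b, IsAdd fun a => f a b

/-- Some positive multiple of `x` is zero. -/
def IsTors (x : M) : Prop := ∃ n : ℕ, 0 < n ∧ n • x = 0

/-- `a x = b y`. -/
def SameMult (a b : ℕ) (x y : M) : Prop := a • x = b • y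

/-- The group generated by the elements with the property `G` is finitely generated. -/
def IsFG (G : M → Prop) : Prop := (AddSubgroup.closure {x | G x}).FG

/-- For every `n > 0` only finitely many elements with the property `G` are killed by `n`. -/
def FinTors (G : M → Prop) : Prop := ∀ n : ℕ, 0 < n → {x | G x ∧ n • x = 0}.Finite

end groups

variable {k : Type} [Field k] {𝒱 : VarClass k} {C : TheoryData.{0, 0, 0} 𝒱 ℚ}

/-- The element `w` is the multiple of `z` by `n`, in the Chow group with rational coefficients. -/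
def IsMult {X : 𝒱.Obj} (n : ℕ) (z w : C.A X) : Prop := w = (n : ℚ) • z

/-- The element `w` is the sum of `z` and `z'`, in the Chow group with rational coefficients. -/
def IsSum {X : 𝒱.Obj} (z z' w : C.A X) : Prop := w = z + z'

/-- The element `w` is zero, in the Chow group with rational coefficients. -/
def IsZeroClass {X : 𝒱.Obj} (w : C.A X) : Prop := w = 0

/-- The data of the Chow groups with integral coefficients of the varieties in the class `𝒱`; here
`C` stands for the Chow groups with rational coefficients. -/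
structure IntegralChow (C : TheoryData.{0, 0, 0} 𝒱 ℚ) where
  /-- the sum of the groups `CH^i(X)`, with integral coefficients -/
  CH : 𝒱.Obj → Type
  [group : ∀ X, AddCommGroup (CH X)]
  /-- the class `z` lies in `CH^i(X)` -/
  Deg : ∀ {X : 𝒱.Obj}, ℤ → CH X → Prop
  /-- the map to the Chow groups with rational coefficients -/
  rat : ∀ {X : 𝒱.Obj}, CH X → C.A X
  /-- the composition of correspondences -/
  comp : ∀ {X Y Z : 𝒱.Obj}, CH (X.prod Y) → CH (Y.prod Z) → CH (X.prod Z)
  /-- the transposed graph of a morphism `X ⟶ Y`, a correspondence from `Y` to `X` -/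
  graph : ∀ {X Y : 𝒱.Obj}, (X ⟶ Y) → CH (Y.prod X)

attribute [instance] IntegralChow.group

/-- `CH^i(X)` with rational coefficients is the tensor product of the integral group with `ℚ`, and
the composition of correspondences and the classes of graphs are compatible with this. -/
structure IsIntegralChow (B : IntegralChow C) : Prop where
  sub : ∀ (X : 𝒱.Obj) (i : ℤ), IsSub (B.Deg (X := X) i)
  rat_add : ∀ (X : 𝒱.Obj) (z z' : B.CH X), IsSum (B.rat z) (B.rat z') (B.rat (z + z'))
  rat_mem : ∀ (X : 𝒱.Obj) (i : ℤ) (z : B.CH X), B.Deg i z → C.Deg i (B.rat z)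
  torsion : ∀ (X : 𝒱.Obj) (z : B.CH X), IsZeroClass (B.rat z) → IsTors z
  multiple : ∀ (X : 𝒱.Obj) (i : ℤ) (z : C.A X), C.Deg i z →
    ∃ (n : ℕ) (w : B.CH X), 0 < n ∧ B.Deg i w ∧ IsMult n z (B.rat w)
  rat_comp : ∀ (X Y Z : 𝒱.Obj) (Γ : B.CH (X.prod Y)) (Δ : B.CH (Y.prod Z)),
    B.rat (B.comp Γ Δ) = compose C (B.rat Γ) (B.rat Δ)
  rat_graph : ∀ (X Y : 𝒱.Obj) (f : X ⟶ Y), B.rat (B.graph f) = C.down (Obj.lift f (𝟙 X)) 1
  comp_graph : ∀ (X Y Z : 𝒱.Obj) (f : X ⟶ Y) (g : Y ⟶ Z),
    B.comp (B.graph g) (B.graph f) = B.graph (f ≫ g)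

/-- There are correspondences of degree zero `α` from `X` to `Y` and `β` from `Y` to `X` whose
composition is a nonzero multiple of the identity of `X`: the motive of `X` is, up to multiples, a
direct summand of the motive of `Y`. For instance, this is the case if there is a surjective morphism
from `Y` to `X`. -/
def IsDominated (B : IntegralChow C) (X Y : 𝒱.Obj) : Prop :=
  ∃ (n : ℕ) (α : B.CH (X.prod Y)) (β : B.CH (Y.prod X)), 0 < n ∧ B.Deg X.dim α ∧
    B.Deg Y.dim β ∧ SameMult 1 n (B.comp α β) (B.graph (𝟙 X))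

/-- The data of a theory with integral coefficients on which correspondences act: groups `M(X)` with
subgroups `M^i(X)`, and an action of the classes in `CH(X × Y)` as maps `M(X) → M(Y)`. -/
structure IntTheory (B : IntegralChow C) where
  /-- the group `M(X)` -/
  M : 𝒱.Obj → Type
  [group : ∀ X, AddCommGroup (M X)]
  /-- the element `m` lies in `M^i(X)` -/
  Deg : ∀ {X : 𝒱.Obj}, ℤ → M X → Prop
  /-- the action of correspondences -/
  app : ∀ {X Y : 𝒱.Obj}, B.CH (X.prod Y) → M X → M Y

attribute [instance] IntTheory.group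

section

variable {B : IntegralChow C} (T : IntTheory B)

/-- The pull-back along a morphism: the action of the transposed graph. -/
def IntTheory.pull {X Y : 𝒱.Obj} (f : X ⟶ Y) (m : T.M Y) : T.M X := T.app (B.graph f) m

/-- The action of correspondences is additive, shifts the degrees as usual, and it is compatible with
composition and identities. Examples: the Chow groups `CH^i(X)`, and, for fixed `m`, the étale motivic
cohomology groups `H^(2 i - m)_et(X, ℤ(i))` and the Weil-étale motivic cohomology groups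
`H^(2 i - m)_W(X, ℤ(i))`. (For `i < 0` the complex `ℤ(i)` is the sum of the sheaves `ℚ_ℓ/ℤ_ℓ(i)`, `ℓ`
different from the characteristic, placed in degree one.) -/
structure IsIntTheory : Prop where
  sub : ∀ (X : 𝒱.Obj) (i : ℤ), IsSub (T.Deg (X := X) i)
  biadd : ∀ X Y : 𝒱.Obj, IsBiadd (T.app (X := X) (Y := Y))
  app_mem : ∀ (X Y : 𝒱.Obj) (i j : ℤ) (Γ : B.CH (X.prod Y)) (m : T.M X),
    B.Deg (X.dim + j) Γ → T.Deg i m → T.Deg (i + j) (T.app Γ m)
  app_comp : ∀ (X Y Z : 𝒱.Obj) (Γ : B.CH (X.prod Y)) (Δ : B.CH (Y.prod Z)) (m : T.M X),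
    T.app (B.comp Γ Δ) m = T.app Δ (T.app Γ m)
  pull_id : ∀ (X : 𝒱.Obj) (m : T.M X), T.pull (𝟙 X) m = m
  pull_mem : ∀ (X Y : 𝒱.Obj) (f : X ⟶ Y) (i : ℤ) (m : T.M Y), T.Deg i m → T.Deg i (T.pull f m)

/-- The endomorphism `π` acts on `M^i(X)` as multiplication by `Q ^ i` if `i ≥ 0`, and `Q ^ (-i)` times
its action is the identity if `i < 0`. -/
def FrobeniusActs {X : 𝒱.Obj} (π : X ⟶ X) (Q : ℕ) : Prop :=
  ∀ (i : ℤ) (m : T.M X), T.Deg i m → SameMult (Q ^ (-i).toNat) (Q ^ i.toNat) (T.pull π m) m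

/-- The group `M^i(X)` is finitely generated. -/
def IntTheory.FG (X : 𝒱.Obj) (i : ℤ) : Prop := IsFG (T.Deg (X := X) i)

/-- The group of the elements of `M^i(X)` whose pull-back along `o : Y ⟶ X` is zero is finitely
generated. -/
def IntTheory.KernelFG {X Y : 𝒱.Obj} (o : Y ⟶ X) (i : ℤ) : Prop :=
  IsFG fun m : T.M X => T.Deg i m ∧ IsNull (T.pull o m)

end

/-- The data for the unramified cohomology. Here `S` stands for the Chow groups `CH^i(X)` and `T` for
the étale motivic cohomology groups `H^(2 i)_et(X, ℤ(i))`. -/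
structure Unramified {B : IntegralChow C} (S T : IntTheory B) where
  /-- the map `CH^i(X) → H^(2 i)_et(X, ℤ(i))` -/
  cyc : ∀ {X : 𝒱.Obj}, S.M X → T.M X
  /-- the group `H^3_nr(X, ℚ/ℤ(2))` -/
  Hnr : 𝒱.Obj → Type
  [groupH : ∀ X, AddCommGroup (Hnr X)]
  /-- the map `H^4_et(X, ℤ(2)) → H^3_nr(X, ℚ/ℤ(2))`, extended by zero to the other degrees -/
  toHnr : ∀ {X : 𝒱.Obj}, T.M X → Hnr X
  /-- the pull-back in unramified cohomology -/
  pullH : ∀ {X Y : 𝒱.Obj}, (X ⟶ Y) → Hnr Y → Hnr X

attribute [instance] Unramified.groupH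

/-- The known properties of these groups, for smooth projective varieties over a finite field:
`CH^i(X) = H^(2 i)_et(X, ℤ(i))` for `i ≤ 1`, and these groups are finitely generated; the exact
sequence `0 → CH^2(X) → H^4_et(X, ℤ(2)) → H^3_nr(X, ℚ/ℤ(2)) → 0` of Kahn, where the last group is a
torsion group; and for all `n > 0`, only finitely many elements of `H^4_et(X, ℤ(2))` are killed by
`n`. -/
structure IsUnramified {B : IntegralChow C} {S T : IntTheory B} (U : Unramified S T) : Prop where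
  cyc_add : ∀ X : 𝒱.Obj, IsAdd (U.cyc (X := X))
  toHnr_add : ∀ X : 𝒱.Obj, IsAdd (U.toHnr (X := X))
  pullH_add : ∀ (X Y : 𝒱.Obj) (f : X ⟶ Y), IsAdd (U.pullH f)
  cyc_mem : ∀ (X : 𝒱.Obj) (i : ℤ) (z : S.M X), S.Deg i z → T.Deg i (U.cyc z)
  cyc_app : ∀ (X Y : 𝒱.Obj) (Γ : B.CH (X.prod Y)) (z : S.M X),
    U.cyc (S.app Γ z) = T.app Γ (U.cyc z)
  low : ∀ (X : 𝒱.Obj) (i : ℤ) (t : T.M X), i ≤ 1 → T.Deg i t → ∃ z, S.Deg i z ∧ U.cyc z = t
  low_fg : ∀ (X : 𝒱.Obj) (i : ℤ), i ≤ 1 → S.FG X i
  injective : ∀ (X : 𝒱.Obj) (z : S.M X), S.Deg 2 z → IsNull (U.cyc z) → IsNull z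
  exact : ∀ (X : 𝒱.Obj) (t : T.M X), T.Deg 2 t →
    (IsNull (U.toHnr t) ↔ ∃ z, S.Deg 2 z ∧ U.cyc z = t)
  surjective : ∀ (X : 𝒱.Obj) (h : U.Hnr X), ∃ t, T.Deg 2 t ∧ U.toHnr t = h
  pull_toHnr : ∀ (X Y : 𝒱.Obj) (f : X ⟶ Y) (t : T.M Y), T.Deg 2 t →
    U.pullH f (U.toHnr t) = U.toHnr (T.pull f t)
  isTorsion : ∀ (X : 𝒱.Obj) (h : U.Hnr X), IsTors h
  torsion : ∀ X : 𝒱.Obj, FinTors (T.Deg (X := X) 2)

/-- Let `o` be a section of the projection `A × Z → Z`. The pull-back along the projection identifies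
`CH^2(Z)`, `H^4_et(Z, ℤ(2))` and `H^3_nr(Z, ℚ/ℤ(2))` with direct summands of the groups of `A × Z`, the
complements being the kernels of `o^*`. These complements are finitely generated for the first two
groups (`chow`, `etale`) and finite for the third one (`unramified`). In particular
`H^3_nr(A × Z, ℚ/ℤ(2))` is finite if and only if `H^3_nr(Z, ℚ/ℤ(2))` is finite, and `CH^2(A × Z)` (or
`H^4_et(A × Z, ℤ(2))`) is finitely generated if and only if the group of `Z` is. If
`H^4_et(Z, ℤ(2))` is finitely generated then for all varieties `X` dominated by `A × Z` the groups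
`CH^2(X)` and `H^4_et(X, ℤ(2))` are finitely generated and `H^3_nr(X, ℚ/ℤ(2))` is finite
(`dominated`). -/
structure SameUnramified {B : IntegralChow C} {S T : IntTheory B} (U : Unramified S T) {A Z : 𝒱.Obj}
    (o : Z ⟶ A.prod Z) : Prop where
  chow : S.KernelFG o 2
  etale : T.KernelFG o 2
  unramified : {h | IsNull (U.pullH o h)}.Finite
  pull_id : ∀ h : U.Hnr Z, U.pullH o (U.pullH (snd A Z) h) = h
  unramified_iff : Finite (U.Hnr (A.prod Z)) ↔ Finite (U.Hnr Z)
  chow_iff : S.FG (A.prod Z) 2 ↔ S.FG Z 2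
  etale_iff : T.FG (A.prod Z) 2 ↔ T.FG Z 2
  dominated : T.FG Z 2 → ∀ X : 𝒱.Obj, IsDominated B X (A.prod Z) →
    S.FG X 2 ∧ T.FG X 2 ∧ Finite (U.Hnr X)

end Pool.Agent.N205.UR
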