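import Mathlib
import Pool.Agent.N205.UR.Defs

/-!
# Unramified cohomology of products with abelian varieties: the property
-/

set_option autoImplicit false

open CategoryTheory AlgebraicGeometry

namespace Pool.Agent.N205.UR

open Polynomial Pool.Agent.H914 Pool.Agent.H914.VarClass Pool.Agent.H914.VarClass.Obj
  Pool.Agent.W492.BB Pool.Agent.W484.CK Pool.Agent.N205.SE

/-- `HnrForIndep q f`: the following holds for the Chow groups with rational coefficients (`C`) and
with integral coefficients (`B`) of all classes `𝒱` of varieties over fields `k` (finite, in the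
intended use), every Weil cohomology theory `H` with coefficients in an algebraically closed field `K`
of characteristic zero, all `A`, `Z` as in `IsIndepSituation`, the Chow groups `S`, the étale motivic
cohomology groups `T` and the unramified cohomology groups, with their known properties
(`IsUnramified`; the Frobenius endomorphism `πA × πZ` of `A × Z` acts on `H^(2 i)_et(A × Z, ℤ(i))` as
multiplication by `q ^ (s i)`), and all sections `o` of the projection `A × Z → Z`, for instance the
zero section: the complements of the groups `CH^2(Z)`, `H^4_et(Z, ℤ(2))` and `H^3_nr(Z, ℚ/ℤ(2))` in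
those of `A × Z` are finitely generated, finitely generated and finite (`SameUnramified`). -/
def HnrForIndep (q : ℕ) {I : Type} (f : I → ℤ[X]) : Prop :=
  ∀ (k : Type) [Field k] (𝒱 : VarClass k) (C : TheoryData.{0, 0, 0} 𝒱 ℚ) [IsChow C]
    (K : Type) [Field K] [IsAlgClosed K] [CharZero K] (H : WeilTheoryData.{0, 0, 0} C K)
    [IsWeil H] (s : ℕ) (A Z : 𝒱.Obj) (πA : A ⟶ A) (πZ : Z ⟶ Z),
      IsIndepSituation H q s f πA πZ → ∀ (B : IntegralChow C) (S T : IntTheory B)
        (U : Unramified S T), IsIntegralChow B → IsIntTheory S → IsIntTheory T →
          IsUnramified U → FrobeniusActs T (prodMap πA πZ) (q ^ s) →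
            ∀ o : Z ⟶ A.prod Z, o ≫ snd A Z = 𝟙 Z → SameUnramified U o

end Pool.Agent.N205.UR
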