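import Mathlib
import Pool.Agent.N205.NR.MainFG
import Pool.Agent.N205.UR.Stm

/-!
# Comparison of the definitions, and the proof
-/

set_option autoImplicit false
set_option linter.unusedSectionVars false

open CategoryTheory AlgebraicGeometry

namespace Pool.Agent.N205.UR

open Polynomial Pool.Agent.H914 Pool.Agent.H914.VarClass Pool.Agent.H914.VarClass.Obj
  Pool.Agent.W492.BB Pool.Agent.W484.CK Pool.Agent.N205.SE

section groups

variable {M N P : Type} [AddCommGroup M] [AddCommGroup N] [AddCommGroup P]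

/-- The subgroup. -/
def subOf (G : M → Prop) (h : IsSub G) : AddSubgroup M where
  carrier := {x | G x}
  zero_mem' := h.1
  neg_mem' := by
    intro a ha
    have h1 := h.2 0 a h.1 ha
    rw [zero_sub] at h1
    exact h1
  add_mem' := by
    intro a b ha hb
    have h1 := h.2 0 b h.1 hb
    have h2 := h.2 a (0 - b) ha h1
    rw [zero_sub, sub_neg_eq_add] at h2
    exact h2

theorem mem_subOf {G : M → Prop} (h : IsSub G) {x : M} : x ∈ subOf G h ↔ G x := Iff.rfl

theorem isFG_iff {G : M → Prop} (h : IsSub G) : IsFG G ↔ (subOf G h).FG := by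
  have h1 : AddSubgroup.closure {x | G x} = subOf G h := AddSubgroup.closure_eq (subOf G h)
  rw [IsFG, h1]

/-- The homomorphism. -/
def homOf (f : M → N) (h : IsAdd f) : M →+ N := AddMonoidHom.mk' f h

theorem homOf_apply {f : M → N} (h : IsAdd f) (x : M) : homOf f h x = f x := rfl

end groups

variable {k : Type} [Field k] {𝒱 : VarClass k} {C : TheoryData.{0, 0, 0} 𝒱 ℚ}

/-- The old form of the data. -/
@[reducible] def oldChow (B : IntegralChow C) (hB : IsIntegralChow B) : NR.IntegralChow C where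
  CH := B.CH
  gr X i := subOf (B.Deg (X := X) i) (hB.sub X i)
  rat X := AddMonoidHom.mk' B.rat (hB.rat_add X)
  comp := B.comp
  graph := B.graph

theorem old_isIntegralChow {B : IntegralChow C} (hB : IsIntegralChow B) :
    NR.IsIntegralChow (oldChow B hB) where
  rat_mem := fun {X i z} h => hB.rat_mem X i z h
  torsion := fun {X z} h => hB.torsion X z h
  multiple := fun {X i z} h => by
    obtain ⟨n, w, hn, hw, h1⟩ := hB.multiple X i z h
    exact ⟨n, hn, w, hw, h1⟩
  rat_comp := fun {X Y Z} Γ Δ => hB.rat_comp X Y Z Γ Δ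
  rat_graph := fun {X Y} f => hB.rat_graph X Y f
  comp_graph := fun {X Y Z} f g => hB.comp_graph X Y Z f g

theorem old_isDominated {B : IntegralChow C} (hB : IsIntegralChow B) {X Y : 𝒱.Obj}
    (h : IsDominated B X Y) : NR.IsDominated (oldChow B hB) X Y := by
  obtain ⟨n, α, β, hn, hα, hβ, h1⟩ := h
  have h2 : (1 : ℕ) • B.comp α β = n • B.graph (𝟙 X) := h1
  rw [one_smul] at h2
  exact ⟨n, hn, α, hα, β, hβ, h2⟩

section

variable {B : IntegralChow C} (hB : IsIntegralChow B)

/-- The old form of the data. -/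
@[reducible] noncomputable def oldTheory (T : IntTheory B) (hT : IsIntTheory T) : NR.IntTheory (oldChow B hB) where
  M := T.M
  gr X i := subOf (T.Deg (X := X) i) (hT.sub X i)
  act := fun {X Y} => AddMonoidHom.mk' (fun Γ => AddMonoidHom.mk' (T.app Γ) ((hT.biadd X Y).1 Γ))
    fun Γ Δ => by
      ext m
      exact (hT.biadd X Y).2 m Γ Δ

theorem old_isIntTheory {T : IntTheory B} (hT : IsIntTheory T) :
    NR.IsIntTheory (oldTheory hB T hT) where
  act_mem := fun {X Y i j Γ m} h1 h2 => hT.app_mem X Y i j Γ m h1 h2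
  act_comp := fun {X Y Z} Γ Δ m => hT.app_comp X Y Z Γ Δ m
  pull_id := fun {X} m => hT.pull_id X m
  pull_mem := fun {X Y} f {i m} h => hT.pull_mem X Y f i m h

theorem old_frobenius {T : IntTheory B} (hT : IsIntTheory T) {X : 𝒱.Obj} {π : X ⟶ X} {Q : ℕ}
    (h : FrobeniusActs T π Q) : NR.FrobeniusActs (oldTheory hB T hT) π Q :=
  fun i m hm => h i m hm

theorem old_fg {T : IntTheory B} (hT : IsIntTheory T) (X : 𝒱.Obj) (i : ℤ) :
    T.FG X i ↔ ((oldTheory hB T hT).gr X i).FG := isFG_iff (hT.sub X i)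

theorem old_kernel {T : IntTheory B} (hT : IsIntTheory T) {X Y : 𝒱.Obj} (o : Y ⟶ X) (i : ℤ) :
    T.KernelFG o i ↔ ((oldTheory hB T hT).kernel o i).FG := by
  have hG : IsSub fun m : T.M X => T.Deg i m ∧ IsNull (T.pull o m) := by
    have h1 := ((oldTheory hB T hT).kernel o i).zero_mem
    exact ⟨h1, fun a b ha hb => ((oldTheory hB T hT).kernel o i).sub_mem ha hb⟩
  have h1 : subOf _ hG = (oldTheory hB T hT).kernel o i := AddSubgroup.ext fun m => Iff.rfl
  rw [← h1]
  exact isFG_iff hG

theorem old_torsion {T : IntTheory B} (hT : IsIntTheory T) (X : 𝒱.Obj) (i : ℤ)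
    (h : FinTors (T.Deg (X := X) i)) : NR.FiniteTorsion (oldTheory hB T hT) X i :=
  fun n hn => h n hn

variable {S T : IntTheory B} (hS : IsIntTheory S) (hT : IsIntTheory T)

/-- The old form of the data. -/
@[reducible] noncomputable def oldUnr (U : Unramified S T) (hU : IsUnramified U) :
    NR.Unramified (oldTheory hB S hS) (oldTheory hB T hT) where
  cyc X := AddMonoidHom.mk' U.cyc (hU.cyc_add X)
  Hnr := U.Hnr
  toHnr X := (AddMonoidHom.mk' U.toHnr (hU.toHnr_add X)).comp
    ((oldTheory hB T hT).gr X 2).subtype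
  pullH {X Y} f := AddMonoidHom.mk' (U.pullH f) (hU.pullH_add X Y f)

theorem old_isUnramified {U : Unramified S T} (hU : IsUnramified U) :
    NR.IsUnramified (oldUnr hB hS hT U hU) where
  cyc_mem := fun {X i z} h => hU.cyc_mem X i z h
  cyc_act := fun {X Y} Γ z => hU.cyc_app X Y Γ z
  low := fun {X i t} hi ht => by
    obtain ⟨z, hz, hz'⟩ := hU.low X i t hi ht
    exact ⟨z, hz, hz'⟩
  low_fg := fun X i hi => (old_fg hB hS X i).1 (hU.low_fg X i hi)
  injective := fun {X z} h1 h2 => hU.injective X z h1 h2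
  exact := fun {X} t => hU.exact X t.1 t.2
  surjective := fun X h => by
    obtain ⟨t, ht, ht'⟩ := hU.surjective X h
    exact ⟨⟨t, ht⟩, ht'⟩
  pull_toHnr := fun {X Y} f t t' h => by
    have h1 := hU.pull_toHnr X Y f t.1 t.2
    exact h1.trans (congrArg U.toHnr h.symm)
  isTorsion := fun {X} h => hU.isTorsion X h
  torsion := fun X => old_torsion hB hT X 2 (hU.torsion X)

theorem same_of_old {U : Unramified S T} (hU : IsUnramified U) {A Z : 𝒱.Obj} {o : Z ⟶ A.prod Z}
    (h : NR.SameUnramified (oldUnr hB hS hT U hU) o) : SameUnramified U o where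
  chow := (old_kernel hB hS o 2).2 h.chow
  etale := (old_kernel hB hT o 2).2 h.etale
  unramified := by
    have h1 := h.unramified
    exact Set.toFinite (SetLike.coe ((oldUnr hB hS hT U hU).pullH o).ker)
  pull_id := h.pull_id
  unramified_iff := h.unramified_iff
  chow_iff := by
    rw [old_fg hB hS, old_fg hB hS]
    exact h.chow_iff
  etale_iff := by
    rw [old_fg hB hT, old_fg hB hT]
    exact h.etale_iff
  dominated := by
    intro h1 X hX
    rw [old_fg hB hT] at h1
    rw [old_fg hB hS, old_fg hB hT]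
    exact h.dominated h1 X (old_isDominated hB hX)

end

section main

open Module Pool.Agent.W550.Corr Pool.Agent.W484.TB Pool.Agent.W484.HS
  Pool.Agent.W521.Frob Pool.Agent.W521.Count Pool.Agent.W521.Bad Pool.Agent.W521.Descent
  Pool.Agent.W521.Density Pool.Agent.N205.SD Pool.Agent.W484

variable {I : Type} [Finite I] (g : I → ℕ) (hg : ∀ i, 0 < g i)
  {q : ℕ} (hq : 1 < q) (x : (Σ i, Fin (g i)) → ℤ) (hx : Good g q x)

include hg hq hx in
/-- **Unramified cohomology.** -/
theorem hnr_indep : HnrForIndep q (fun i => weil q (polys g x i)) := by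
  intro k _ 𝒱 C _ K _ _ _ H _ s A Z πA πZ hsit B S T U hB hS hT hU hF o ho
  exact same_of_old hB hS hT hU (NR.hnr_indep g hg hq x hx k 𝒱 C K H s A Z πA πZ hsit
    (oldChow B hB) (oldTheory hB S hS) (oldTheory hB T hT) (oldUnr hB hS hT U hU)
    (old_isIntegralChow hB) (old_isIntTheory hB hS) (old_isIntTheory hB hT)
    (old_isUnramified hB hS hT hU) (old_frobenius hB hT hF) o ho)

end main

end Pool.Agent.N205.UR
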