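import Mathlib
import Pool.Agent.N205.UR.Defs

/-!
# Finite generation of motivic cohomology of products with abelian varieties: the property
-/

set_option autoImplicit false

open CategoryTheory AlgebraicGeometry

namespace Pool.Agent.N205.UR

open Polynomial Pool.Agent.H914 Pool.Agent.H914.VarClass Pool.Agent.H914.VarClass.Obj
  Pool.Agent.W492.BB Pool.Agent.W484.CK Pool.Agent.N205.SE

variable {k : Type} [Field k] {𝒱 : VarClass k} {C : TheoryData.{0, 0, 0} 𝒱 ℚ}
  {B : IntegralChow C}

/-- The group `H^i(X, ℤ(n))` is finitely generated. Here `W m` is the theory with the groups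
`H^(2 n - m)(X, ℤ(n))`, for fixed `m`. -/
def IsFinGen (W : ℤ → IntTheory B) (X : 𝒱.Obj) (i n : ℤ) : Prop := (W (2 * n - i)).FG X n

/-- The statement `L^n(X)` of the conjecture of Lichtenbaum: `H^i(X, ℤ(n))` is finitely generated for
all `i`. -/
def Lichtenbaum (W : ℤ → IntTheory B) (n : ℤ) (X : 𝒱.Obj) : Prop := ∀ i : ℤ, IsFinGen W X i n

/-- The known properties of the Weil-étale motivic cohomology groups `H^(2 n - m)_W(X, ℤ(n))` of smooth
projective varieties over a finite field: correspondences act, every group has only finitely many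
elements of each order, and the Frobenius endomorphism `π` of `X₀` acts on `H^i_W(X₀, ℤ(n))` as
multiplication by `Q ^ n`. -/
structure IsWeilEtale (W : ℤ → IntTheory B) {X₀ : 𝒱.Obj} (π : X₀ ⟶ X₀) (Q : ℕ) : Prop where
  theory : ∀ m : ℤ, IsIntTheory (W m)
  torsion : ∀ (m : ℤ) (X : 𝒱.Obj) (n : ℤ), FinTors ((W m).Deg (X := X) n)
  frobenius : ∀ m : ℤ, FrobeniusActs (W m) π Q

/-- `FGForIndep q f`: the following holds for the Chow groups with rational coefficients (`C`) and
with integral coefficients (`B`) of all classes `𝒱` of varieties over fields `k` (finite, in the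
intended use), every Weil cohomology theory `H` with coefficients in an algebraically closed field `K`
of characteristic zero, all `A`, `Z` as in `IsIndepSituation`, and the Weil-étale (or étale) motivic
cohomology groups, with their known properties (`IsWeilEtale`), and all `i`, `n`:
* `H^i(A × Z, ℤ(n))` is finitely generated if and only if the groups `H^(i - 2 c)(Z, ℤ(n - c))`,
  `0 ≤ c ≤ dim A`, are finitely generated;
* `L^n(A × Z)` holds if and only if `L^(n - c)(Z)` holds for `0 ≤ c ≤ dim A`;
* if the groups `H^(i - 2 c)(Z, ℤ(n - c))`, `0 ≤ c ≤ dim A`, are finitely generated then so is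
  `H^i(X, ℤ(n))` for all varieties `X` dominated by `A × Z`. -/
def FGForIndep (q : ℕ) {I : Type} (f : I → ℤ[X]) : Prop :=
  ∀ (k : Type) [Field k] (𝒱 : VarClass k) (C : TheoryData.{0, 0, 0} 𝒱 ℚ) [IsChow C]
    (K : Type) [Field K] [IsAlgClosed K] [CharZero K] (H : WeilTheoryData.{0, 0, 0} C K)
    [IsWeil H] (s : ℕ) (A Z : 𝒱.Obj) (πA : A ⟶ A) (πZ : Z ⟶ Z),
      IsIndepSituation H q s f πA πZ → ∀ (B : IntegralChow C) (W : ℤ → IntTheory B),
        IsIntegralChow B → IsWeilEtale W (prodMap πA πZ) (q ^ s) → ∀ i n : ℤ,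
          (IsFinGen W (A.prod Z) i n ↔ ∀ c : ℕ, c ≤ A.dim → IsFinGen W Z (i - 2 * c) (n - c)) ∧
          (Lichtenbaum W n (A.prod Z) ↔ ∀ c : ℕ, c ≤ A.dim → Lichtenbaum W (n - c) Z) ∧
          ∀ X : 𝒱.Obj, IsDominated B X (A.prod Z) →
            (∀ c : ℕ, c ≤ A.dim → IsFinGen W Z (i - 2 * c) (n - c)) → IsFinGen W X i n

end Pool.Agent.N205.UR
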