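import Mathlib
import Pool.Agent.N205.UR.Bridge
import Pool.Agent.N205.UR.StmFG

/-!
# Finite generation: the proof
-/

set_option autoImplicit false
set_option linter.unusedSectionVars false

open CategoryTheory AlgebraicGeometry

namespace Pool.Agent.N205.UR

open Module Polynomial Pool.Agent.H914 Pool.Agent.H914.VarClass Pool.Agent.H914.VarClass.Obj
  Pool.Agent.W492.BB Pool.Agent.W484.CK Pool.Agent.N205.SE Pool.Agent.W550.Corr
  Pool.Agent.W484.TB Pool.Agent.W484.HS Pool.Agent.W521.Frob Pool.Agent.W521.Count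
  Pool.Agent.W521.Bad Pool.Agent.W521.Descent Pool.Agent.W521.Density Pool.Agent.N205.SD
  Pool.Agent.W484

variable {I : Type} [Finite I] (g : I → ℕ) (hg : ∀ i, 0 < g i)
  {q : ℕ} (hq : 1 < q) (x : (Σ i, Fin (g i)) → ℤ) (hx : Good g q x)

include hg hq hx in
/-- **Finite generation.** -/
theorem fg_indep : FGForIndep q (fun i => weil q (polys g x i)) := by
  intro k _ 𝒱 C _ K _ _ _ H _ s A Z πA πZ hsit B W hB hW i n
  have key : ∀ m n : ℤ, ((W m).FG (A.prod Z) n ↔ ∀ c : ℕ, c ≤ A.dim → (W m).FG Z (n - c)) ∧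
      ∀ X : 𝒱.Obj, IsDominated B X (A.prod Z) →
        (∀ c : ℕ, c ≤ A.dim → (W m).FG Z (n - c)) → (W m).FG X n := by
    intro m n
    have h1 := NR.fg_indep g hg hq x hx k 𝒱 C K H s A Z πA πZ hsit (oldChow B hB)
      (oldTheory hB (W m) (hW.theory m)) (old_isIntegralChow hB) (old_isIntTheory hB (hW.theory m))
      (fun X i => old_torsion hB (hW.theory m) X i (hW.torsion m X i))
      (old_frobenius hB (hW.theory m) (hW.frobenius m)) n
    simp only [← old_fg hB (hW.theory m)] at h1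
    exact ⟨h1.1, fun X hX => h1.2 X (old_isDominated hB hX)⟩
  have hdeg : ∀ (i n : ℤ) (c : ℕ), 2 * (n - c) - (i - 2 * c) = 2 * n - i := fun i n c => by ring
  have h1 : ∀ i n : ℤ, IsFinGen W (A.prod Z) i n ↔
      ∀ c : ℕ, c ≤ A.dim → IsFinGen W Z (i - 2 * c) (n - c) := by
    intro i n
    simp only [IsFinGen, hdeg]
    exact (key _ n).1
  refine ⟨h1 i n, ⟨fun h c hc j => ?_, fun h j => ?_⟩, fun X hX h => ?_⟩
  · have h2 := (h1 (j + 2 * c) n).1 (h _) c hc
    rwa [add_sub_cancel_right] at h2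
  · exact (h1 j n).2 fun c hc => h c hc _
  · simp only [IsFinGen, hdeg] at h ⊢
    exact (key _ n).2 X hX h

end Pool.Agent.N205.UR
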